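import Pool.Agent.Helper13.TR.StB

/-!
Project TR (MP_a45945_gt), module P1LP2L: closed subsets of lines.
-/

set_option autoImplicit false

namespace Pool.Agent.Helper76.TR

open Set Topology Pool.Agent.Helper13.TR

private theorem PP_of_subsingleton (hMON : StMON) {W : Type} [TopologicalSpace W] (hW : HM W)
    (B : Set W) (hB : B.Subsingleton) (k : ℕ) (hk : k < 3) : PP B k := by
  rcases hB.eq_empty_or_singleton with h | ⟨x, h⟩
  · rw [h]
    exact (hMON W).2.2.2.2.2 k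
  · rw [h]
    exact hW.low x k hk

theorem hP1L (hBIS : StBIS) (hMON : StMON) : StP1L := by
  intro W _ _ hW D h hD hinj σ hσ
  have hsub : ∀ r : ℝ, (D ∩ h ⁻¹' {r}).Subsingleton := by
    intro r a ha b hb
    exact hinj ha.1 hb.1 ((mem_singleton_iff.1 ha.2).trans (mem_singleton_iff.1 hb.2).symm)
  refine hBIS W D h 1 σ hD ?_ ?_
  · intro r
    exact PP_of_subsingleton hMON hW _ (hsub r) 2 (by norm_num)
  · intro r
    have h1 : σ ∈ Cyc (D ∩ h ⁻¹' {r}) 1 := ((hMON W).2.2.2.2.1 _ _ 1 inter_subset_left).1 hσ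
    exact PP_of_subsingleton hMON hW _ (hsub r) 1 (by norm_num) h1

theorem hP2L (hRAY : StRAY) (hMV : StMV) (hMON : StMON) : StP2L := by
  intro W Y _ _ _ _ hW s q hE y hr σ hσ
  obtain ⟨r, hr⟩ := hr
  set D : Set W := q ⁻¹' {y} with hDdef
  have hD : IsClosed D := isClosed_singleton.preimage q.continuous
  have hinj : InjOn s D := by
    intro a ha b hb hab
    apply hE.injective
    have h1 : q a = y := ha
    have h2 : q b = y := hb
    simp only [Prod.mk.injEq]
    exact ⟨hab, h1.trans h2.symm⟩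
  have hcpt : ∀ a b : ℝ, IsCompact (D ∩ s ⁻¹' Icc a b) := by
    intro a b
    have h1 : IsCompact ((fun w => (s w, q w)) ⁻¹' (Icc a b ×ˢ ({y} : Set Y))) :=
      hE.isCompact_preimage (isCompact_Icc.prod isCompact_singleton)
    have h2 : (fun w => (s w, q w)) ⁻¹' (Icc a b ×ˢ ({y} : Set Y)) = D ∩ s ⁻¹' Icc a b := by
      ext w
      simp only [mem_preimage, mem_prod, mem_inter_iff, mem_singleton_iff, hDdef]
      tauto
    rw [← h2]
    exact h1
  have hc1 : IsClosed {w | r ≤ s w} := isClosed_le continuous_const s.continuous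
  have hc2 : IsClosed {w | s w ≤ r} := isClosed_le s.continuous continuous_const
  have hp1 : PP (D ∩ {w | r ≤ s w}) 2 := by
    refine hRAY W hW _ s (hD.inter hc1) (hinj.mono inter_subset_left) ?_ ⟨r, fun w hw => hw.2⟩
    intro a b
    have h1 : D ∩ {w | r ≤ s w} ∩ s ⁻¹' Icc a b = (D ∩ s ⁻¹' Icc a b) ∩ {w | r ≤ s w} := by
      ext w
      simp only [mem_inter_iff]
      tauto
    rw [h1]
    exact (hcpt a b).inter_right hc1
  have hp2 : PP (D ∩ {w | s w ≤ r}) 2 := by
    refine hRAY W hW _ (-s) (hD.inter hc2) ?_ ?_ ⟨-r, fun w hw => ?_⟩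
    · intro a ha b hb hab
      apply hinj ha.1 hb.1
      simpa using hab
    · intro a b
      have h1 : D ∩ {w | s w ≤ r} ∩ (-s : C(W, ℝ)) ⁻¹' Icc a b
          = (D ∩ s ⁻¹' Icc (-b) (-a)) ∩ {w | s w ≤ r} := by
        ext w
        simp only [mem_inter_iff, mem_preimage, mem_Icc, ContinuousMap.neg_apply]
        constructor
        · rintro ⟨⟨h1, h2⟩, h3, h4⟩
          exact ⟨⟨h1, by linarith, by linarith⟩, h2⟩
        · rintro ⟨⟨h1, h3, h4⟩, h2⟩
          exact ⟨⟨h1, h2⟩, by linarith, by linarith⟩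
      rw [h1]
      exact (hcpt (-b) (-a)).inter_right hc2
    · have h1 : s w ≤ r := hw.2
      simpa using h1
  have hn1 : σ ∈ Nul (D ∩ {w | r ≤ s w}) 2 :=
    hp1 (((hMON W).2.2.2.2.1 _ _ 2 inter_subset_left).1 hσ)
  have hn2 : σ ∈ Nul (D ∩ {w | s w ≤ r}) 2 :=
    hp2 (((hMON W).2.2.2.2.1 _ _ 2 inter_subset_left).1 hσ)
  have hempty : (D ∩ {w | r ≤ s w}) ∩ (D ∩ {w | s w ≤ r}) = ∅ := by
    ext w
    simp only [mem_inter_iff, mem_setOf_eq, mem_empty_iff_false, iff_false, not_and]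
    rintro ⟨h1, h2⟩ _ h3
    exact hr w h1 (le_antisymm h3 h2)
  have hunion : (D ∩ {w | r ≤ s w}) ∪ (D ∩ {w | s w ≤ r}) = D := by
    ext w
    simp only [mem_union, mem_inter_iff, mem_setOf_eq]
    constructor
    · rintro (h | h) <;> exact h.1
    · intro h
      rcases le_total r (s w) with h1 | h1
      · exact Or.inl ⟨h, h1⟩
      · exact Or.inr ⟨h, h1⟩
  have h5 := (hMV W (D ∩ {w | r ≤ s w}) (D ∩ {w | s w ≤ r}) (hD.inter hc1) (hD.inter hc2) 2).2.2.2.2
  rw [hempty, hunion] at h5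
  exact h5 ((hMON W).2.2.2.2.2 3) σ hn1 hn2

end Pool.Agent.Helper76.TR
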